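import Mathlib
import Pool.Agent.TP975.LR.Lo2

/-!
The variance of the sums of `λ(f(n))` over the classes of every large modulus, for almost all polynomials `f`.
-/

set_option autoImplicit false

namespace Pool.Agent.Results.MP_5dd4bb_nt.VarianceEveryModulus

open Finset

/-- the Liouville function on the integers, `lam (-m) = lam m`, `lam 0 = 0` -/
noncomputable def lam (m : ℤ) : ℝ := if m = 0 then 0 else (-1) ^ ArithmeticFunction.cardFactors m.natAbs

/-- the value at `t` of the polynomial with the coefficients `a 0, ..., a d` -/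
def value {d : ℕ} (a : Fin (d + 1) → ℤ) (t : ℤ) : ℤ := ∑ c, a c * t ^ (c : ℕ)

/-- the polynomials of degree at most `d` with coefficients in `[-H, H]` -/
noncomputable def box (d H : ℕ) : Finset (Fin (d + 1) → ℤ) := Fintype.piFinset fun _ => Icc (-(H : ℤ)) H

/-- the sum over the classes `b` mod `Q` of the square of the sum of `lam (f n)` over `1 ≤ n ≤ X`, `n ≡ b` mod `Q` -/
noncomputable def G {d : ℕ} (f : Fin (d + 1) → ℤ) (X Q : ℕ) : ℝ :=
  ∑ b ∈ range Q, (∑ n ∈ (Icc 1 X).filter (fun n => n % Q = b), lam (value f (n : ℤ))) ^ 2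

open Classical in
/-- Let `m ≥ 1` and `2 m ≤ d`. Almost all polynomials `f` of degree at most `d` satisfy `|G f X Q - X| ≤ X / log ^ η H` for ALL
`X ≤ log ^ A H` and ALL moduli `1 ≤ Q ≤ X` with `X log ^ ε H ≤ Q ^ (m - 1)`. -/
theorem result (d A m : ℕ) (hm : 1 ≤ m) (hmd : 2 * m ≤ d) (ε : ℝ) (hε : 0 < ε) :
    ∃ η : ℝ, 0 < η ∧ ∃ H₀ : ℕ, ∀ H : ℕ, H₀ ≤ H →
    (((box d H).filter (fun f => ∃ X Q : ℕ, 1 ≤ Q ∧ Q ≤ X ∧ (X : ℝ) ≤ Real.log H ^ A ∧
      (X : ℝ) * Real.log H ^ ε ≤ (Q : ℝ) ^ (m - 1) ∧ (X : ℝ) / Real.log H ^ η < |G f X Q - X|)).card : ℝ) ≤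
      (box d H).card / Real.log H ^ η := by
  obtain ⟨η, hη, H1, h1⟩ := Pool.Agent.TP975.LR.var_all m A hm ε hε
  obtain ⟨H2, h2⟩ := Pool.Agent.TP975.LR.mixG_J Pool.Agent.TP975.LR.lamI Pool.Agent.TP975.LR.winB_lamI
    (fun v hv => by
      unfold Pool.Agent.TP975.LR.lamI
      rw [if_neg hv]
      exact neg_one_pow_eq_or ℝ _) (by
      unfold Pool.Agent.TP975.LR.lamI
      rw [if_pos rfl]) d A (4 * m) 1 ((3 * A + 1) * (2 * m)) le_rfl (by omega)
  refine ⟨η, hη, max H1 (max H2 3), fun H hH => ?_⟩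
  have hH1 : H1 ≤ H := (le_max_left _ _).trans hH
  have hH2 : H2 ≤ H := ((le_max_left _ _).trans (le_max_right _ _)).trans hH
  have hH3 : 3 ≤ H := ((le_max_right _ _).trans (le_max_right _ _)).trans hH
  have hL0 : 0 ≤ Real.log H := Real.log_natCast_nonneg H
  obtain ⟨Bad, _, hB, hall⟩ := h1 H hH1 d _ (h2 H hH2 {0} (card_singleton 0) (fun j hj => by
    rw [mem_singleton] at hj
    rw [hj]
    simpa using pow_nonneg hL0 A))
  refine le_trans ?_ hB
  have hsub : (box d H).filter (fun f => ∃ X Q : ℕ, 1 ≤ Q ∧ Q ≤ X ∧ (X : ℝ) ≤ Real.log H ^ A ∧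
      (X : ℝ) * Real.log H ^ ε ≤ (Q : ℝ) ^ (m - 1) ∧ (X : ℝ) / Real.log H ^ η < |G f X Q - X|) ⊆ Bad := by
    intro f hf
    rw [mem_filter] at hf
    obtain ⟨hf1, X, Q, hQ, hQX, hX, hc, hlt⟩ := hf
    by_contra hbad
    apply absurd hlt
    rw [not_lt]
    have h3 := hall f hf1 hbad X Q hQ hQX hX hc
    have e1 : G f X Q = ∑ b ∈ range Q, Pool.Agent.TP975.LR.SG (Pool.Agent.TP975.LR.GJ Pool.Agent.TP975.LR.lamI {0})
        (Pool.Agent.TP975.LR.Tc X Q b) f ^ 2 := by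
      unfold G Pool.Agent.TP975.LR.SG Pool.Agent.TP975.LR.Tc Pool.Agent.TP975.LR.GJ
      refine sum_congr rfl fun b _ => ?_
      rw [sum_image (fun a _ b _ h => Int.ofNat_inj.1 h)]
      congr 1
      refine sum_congr rfl fun n _ => ?_
      rw [prod_singleton, add_zero]
      rfl
    rw [e1]
    exact h3
  exact_mod_cast card_le_card hsub

end Pool.Agent.Results.MP_5dd4bb_nt.VarianceEveryModulus
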